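import Mathlib
import Pool.Agent.H.MP_c19a8f_an.D

open Filter Topology Set

namespace Pool.Agent.Results.MP_c19a8f_an.Yes

open Pool.Agent.H.MP_c19a8f_an

theorem result (p q : Polynomial ℤ) (hp : 2 ≤ p.natDegree) (hq : 2 ≤ q.natDegree) :
    ∃ (X : Type) (_ : MetricSpace X) (_ : CompactSpace X) (_ : Nonempty X) (T S : X ≃ₜ X),
      (∀ x : X, Dense (range fun n : ℤ => (T ^ n) x)) ∧
      (∀ x : X, Dense (range fun n : ℤ => (S ^ n) x)) ∧
      ∀ x : X, ¬ ∃ n : ℕ → ℤ, Tendsto (fun i => |n i|) atTop atTop ∧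
        Tendsto (fun i => (T ^ p.eval (n i)) x) atTop (𝓝 x) ∧
        Tendsto (fun i => (S ^ q.eval (n i)) x) atTop (𝓝 x) := by
  choose ρ hρ using fr_poly p hp
  choose σ hσ using fr_poly q hq
  obtain ⟨Φ, F, hF, h⟩ := main _ _ ρ σ hρ hσ (fin_poly p hp) (fin_poly q hq)
  haveI : TopologicalSpace.MetrizableSpace (X ρ) :=
    TopologicalSpace.metrizableSpace_of_t3_secondCountable _
  refine ⟨X ρ, TopologicalSpace.metrizableSpaceMetric _, inferInstanceAs (CompactSpace (X ρ)),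
    ne hρ, T ρ, Φ.trans ((T σ).trans Φ.symm), dense, fun x => ?_, ?_⟩
  · have := Φ.symm.surjective.denseRange.dense_image Φ.symm.continuous (dense (Φ x))
    rw [← range_comp] at this
    exact this.mono (by
      rintro _ ⟨n, rfl⟩
      exact ⟨n, by simp only [Function.comp, ← conj, Homeomorph.symm_apply_apply]⟩)
  · rintro x ⟨n, h1, h2, h3⟩
    have h4 := (Φ.continuous.tendsto x).comp h3
    have h5 : Tendsto (fun i => (T σ ^ q.eval (n i)) (Φ x)) atTop (𝓝 (Φ x)) :=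
      h4.congr fun i => conj _ _ _ _
    obtain ⟨M, hM⟩ := (hF.image fun m => |m|).bddAbove
    obtain ⟨i, a, b, c⟩ := ((ret (fun m => p.eval m) n x h2).and
      ((ret (fun m => q.eval m) n (Φ x) h5).and (h1.eventually_gt_atTop M))).exists
    exact absurd (hM ⟨_, h x ⟨a, b⟩, rfl⟩) (not_le.2 c)

end Pool.Agent.Results.MP_c19a8f_an.Yes
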